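import Mathlib

/-!
# MP_aff84d_nt: solvability of `x^2 + y^2 + z^2 - a x y z = b`

The pair `(a, b)` is solvable if this equation has a solution in integers. If `b` is a sum of two squares, then
`(a, b)` is solvable for every `a` (take `x = 0`). The theorem says that for almost all pairs nothing else happens.

* (A) For all `a ≠ 0` and all `b`: `(a, b)` is solvable if and only if `b` is a sum of two squares, or
  `b = x^2 + y^2 + z^2 + s |a| x y z` with `s` equal to `1` or `-1` and positive integers `x, y, z` such that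
  `|a| x y z ≤ 10 |b| + 64`; for `|a| ≥ 5` the bound `10 |b|` suffices (a finite list of candidates).
* (B) For `|a| ≥ 3` and `3 - |a| < b < |a| + 3`: `(a, b)` is solvable if and only if `b` is a sum of two squares; for
  `b = 3 - |a|` and for `b = |a| + 3` it is solvable.
* (C) For all but `C N (log N)^3` of the `(2 N + 1)^2` pairs with `|a|, |b| ≤ N`: `(a, b)` is solvable if and only if `b` is
  a sum of two squares.

Proof: descent (exchange of the two roots of the quadratic equation for the largest unknown), estimates for the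
solutions which cannot be descended, and the number of quadruples of positive integers with bounded product.
-/

set_option autoImplicit false

namespace Pool.Agent.Results.MP_aff84d_nt.AlmostAllPairs

/-- `x^2 + y^2 + z^2 - a x y z = b` has a solution in integers -/
def Solvable (a b : ℤ) : Prop := ∃ x y z : ℤ, x ^ 2 + y ^ 2 + z ^ 2 - a * x * y * z = b

/-- `b` is a sum of two squares -/
def TwoSquares (b : ℤ) : Prop := ∃ u v : ℤ, b = u ^ 2 + v ^ 2

/-- solutions with negative product -/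
def Neg (a b : ℤ) : Prop := ∃ x y z : ℤ, 1 ≤ x ∧ 1 ≤ y ∧ 1 ≤ z ∧ b = x ^ 2 + y ^ 2 + z ^ 2 + a * x * y * z

/-- fundamental solutions -/
def Fund (a b : ℤ) : Prop := ∃ x y z : ℤ, 1 ≤ x ∧ x ≤ y ∧ y ≤ z ∧ 2 * z ≤ a * x * y ∧
  b = x ^ 2 + y ^ 2 + z ^ 2 - a * x * y * z

lemma sorted (P : ℤ → ℤ → ℤ → Prop) (h12 : ∀ x y z, P x y z → P y x z) (h23 : ∀ x y z, P x y z → P x z y)
    (h : ∀ x y z, x ≤ y → y ≤ z → P x y z) (x y z : ℤ) : P x y z := by
  rcases le_total x y with h1 | h1 <;> rcases le_total y z with h2 | h2 <;> rcases le_total x z with h3 | h3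
  · exact h x y z h1 h2
  · exact h x y z h1 h2
  · exact h23 _ _ _ (h x z y h3 h2)
  · exact h23 _ _ _ (h12 _ _ _ (h z x y h3 h1))
  · exact h12 _ _ _ (h y x z h1 h3)
  · exact h12 _ _ _ (h23 _ _ _ (h y z x h2 h3))
  · exact h12 _ _ _ (h23 _ _ _ (h12 _ _ _ (h z y x h2 h1)))
  · exact h12 _ _ _ (h23 _ _ _ (h12 _ _ _ (h z y x h2 h1)))

lemma descent (a b : ℤ) (n : ℕ) : ∀ x y z : ℤ, 1 ≤ x → 1 ≤ y → 1 ≤ z → x + y + z ≤ n →
    x ^ 2 + y ^ 2 + z ^ 2 - a * x * y * z = b → TwoSquares b ∨ Neg a b ∨ Fund a b := by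
  induction n with
  | zero => intro x y z hx hy hz h; push_cast at h; omega
  | succ n ih =>
    refine sorted _ ?_ ?_ ?_
    · intro x y z h hx hy hz hs he
      exact h hy hx hz (by linarith) (by linear_combination he)
    · intro x y z h hx hy hz hs he
      exact h hx hz hy (by linarith) (by linear_combination he)
    · intro x y z hxy hyz hx hy hz hs he
      by_cases hf : 2 * z ≤ a * x * y
      · exact Or.inr (Or.inr ⟨x, y, z, hx, hxy, hyz, hf, he.symm⟩)
      · push Not at hf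
        obtain ⟨w, hw⟩ : ∃ w, w = a * x * y - z := ⟨_, rfl⟩
        have hwz : w < z := by rw [hw]; linarith
        have he' : x ^ 2 + y ^ 2 + w ^ 2 - a * x * y * w = b := by
          rw [hw]
          linear_combination he
        rcases lt_trichotomy w 0 with h | h | h
        · refine Or.inr (Or.inl ⟨x, y, -w, hx, hy, by linarith, ?_⟩)
          linear_combination -he'
        · refine Or.inl ⟨x, y, ?_⟩
          rw [h] at he'
          linear_combination -he'
        · apply ih x y w hx hy (by linarith) _ he'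
          push_cast at hs
          linarith

lemma solvable_neg {a b : ℤ} (h : Solvable a b) : Solvable (-a) b := by
  obtain ⟨x, y, z, h⟩ := h
  exact ⟨-x, y, z, by linear_combination h⟩

lemma solvable_abs (a b : ℤ) : Solvable |a| b ↔ Solvable a b := by
  rcases abs_choice a with h | h
  · rw [h]
  · rw [h]
    exact ⟨fun h' => by simpa using solvable_neg h', solvable_neg⟩

lemma two_solvable (a : ℤ) {b : ℤ} (h : TwoSquares b) : Solvable a b := by
  obtain ⟨u, v, h⟩ := h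
  exact ⟨0, u, v, by rw [h]; ring⟩

/-- the trichotomy -/
lemma cases_of (a : ℤ) {b : ℤ} (h : Solvable a b) : TwoSquares b ∨ Neg a b ∨ Fund a b := by
  have key : ∀ x y z : ℤ, 0 < x → 0 < y → 0 < z → x ^ 2 + y ^ 2 + z ^ 2 - a * x * y * z = b →
      TwoSquares b ∨ Neg a b ∨ Fund a b := by
    intro x y z hx hy hz he
    exact descent a b (x + y + z).toNat x y z hx hy hz (Int.self_le_toNat _) he
  have keyn : ∀ x y z : ℤ, 0 < x → 0 < y → 0 < z → x ^ 2 + y ^ 2 + z ^ 2 + a * x * y * z = b →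
      TwoSquares b ∨ Neg a b ∨ Fund a b := by
    intro x y z hx hy hz he
    exact Or.inr (Or.inl ⟨x, y, z, hx, hy, hz, he.symm⟩)
  obtain ⟨x, y, z, he⟩ := h
  rcases lt_trichotomy x 0 with hx | hx | hx
  · rcases lt_trichotomy y 0 with hy | hy | hy
    · rcases lt_trichotomy z 0 with hz | hz | hz
      · exact keyn (-x) (-y) (-z) (by linarith) (by linarith) (by linarith) (by linear_combination he)
      · exact Or.inl ⟨x, y, by rw [← he, hz]; ring⟩
      · exact key (-x) (-y) z (by linarith) (by linarith) (by linarith) (by linear_combination he)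
    · exact Or.inl ⟨x, z, by rw [← he, hy]; ring⟩
    · rcases lt_trichotomy z 0 with hz | hz | hz
      · exact key (-x) y (-z) (by linarith) (by linarith) (by linarith) (by linear_combination he)
      · exact Or.inl ⟨x, y, by rw [← he, hz]; ring⟩
      · exact keyn (-x) y z (by linarith) (by linarith) (by linarith) (by linear_combination he)
  · exact Or.inl ⟨y, z, by rw [← he, hx]; ring⟩
  · rcases lt_trichotomy y 0 with hy | hy | hy
    · rcases lt_trichotomy z 0 with hz | hz | hz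
      · exact key x (-y) (-z) (by linarith) (by linarith) (by linarith) (by linear_combination he)
      · exact Or.inl ⟨x, y, by rw [← he, hz]; ring⟩
      · exact keyn x (-y) z (by linarith) (by linarith) (by linarith) (by linear_combination he)
    · exact Or.inl ⟨x, z, by rw [← he, hy]; ring⟩
    · rcases lt_trichotomy z 0 with hz | hz | hz
      · exact keyn x y (-z) (by linarith) (by linarith) (by linarith) (by linear_combination he)
      · exact Or.inl ⟨x, y, by rw [← he, hz]; ring⟩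
      · exact key x y z (by linarith) (by linarith) (by linarith) he

lemma neg_bound {a b x y z : ℤ} (hx : 1 ≤ x) (hy : 1 ≤ y) (hz : 1 ≤ z)
    (h : b = x ^ 2 + y ^ 2 + z ^ 2 + a * x * y * z) : a * x * y * z + 3 ≤ b := by
  nlinarith [mul_pos (by linarith : (0 : ℤ) < x) (by linarith : (0 : ℤ) < y)]

lemma fund_bound {a b x y z : ℤ} (ha : 5 ≤ a) (hx : 1 ≤ x) (hxy : x ≤ y) (hyz : y ≤ z) (hf : 2 * z ≤ a * x * y)
    (h : b = x ^ 2 + y ^ 2 + z ^ 2 - a * x * y * z) : a * x * y * z ≤ -10 * b := by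
  have hy : 1 ≤ y := by linarith
  have hz : 1 ≤ z := by linarith
  have h1 : 2 * z * z ≤ a * x * y * z := mul_le_mul_of_nonneg_right hf (by linarith)
  have hax : 5 ≤ a * x := by nlinarith
  have hyz0 : 0 < y * z := by positivity
  have h2 : 5 * (y * z) ≤ a * x * (y * z) := mul_le_mul_of_nonneg_right hax hyz0.le
  have h3 : x ^ 2 ≤ y * z := by nlinarith
  have h4 : y ^ 2 ≤ y * z := by nlinarith
  have h5 : a * x * y * z = a * x * (y * z) := by ring
  nlinarith

lemma fund_bound' {a b x y z : ℤ} (ha : 3 ≤ a) (hx : 1 ≤ x) (hxy : x ≤ y) (hyz : y ≤ z) (hf : 2 * z ≤ a * x * y)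
    (h : b = x ^ 2 + y ^ 2 + z ^ 2 - a * x * y * z) : b ≤ 3 - a := by
  have hy : 1 ≤ y := by linarith
  have h1 : 0 ≤ (z - y) * (a * x * y - z - y) := mul_nonneg (by linarith) (by linarith)
  have h2 : b ≤ x ^ 2 + 2 * y ^ 2 - a * x * y ^ 2 := by nlinarith
  have h3 : x ^ 2 ≤ y ^ 2 := by nlinarith
  have h4 : a ≤ a * x := by nlinarith
  have h5 : (a - 3) * 1 ≤ (a * x - 3) * y ^ 2 := by
    apply mul_le_mul (by linarith) (by nlinarith) (by norm_num) (by linarith)
  nlinarith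

lemma fund_bound_all {a b x y z : ℤ} (ha : 1 ≤ a) (hx : 1 ≤ x) (hxy : x ≤ y) (hyz : y ≤ z)
    (hf : 2 * z ≤ a * x * y) (h : b = x ^ 2 + y ^ 2 + z ^ 2 - a * x * y * z) :
    TwoSquares b ∨ a * x * y * z ≤ 10 * |b| + 64 := by
  have hy : 1 ≤ y := by linarith
  have hz : 1 ≤ z := by linarith
  obtain ⟨c, hc⟩ : ∃ c, c = a * x := ⟨_, rfl⟩
  have hxc : x ≤ c := by rw [hc]; nlinarith
  have hc1 : 1 ≤ c := by linarith
  have hyz0 : 0 < y * z := by positivity
  have hb1 := neg_le_abs b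
  have hb0 := abs_nonneg b
  have hy2 : y ^ 2 ≤ y * z := by nlinarith
  have e1 : a * x * y * z = c * (y * z) := by rw [hc]; ring
  rw [← hc] at hf
  have h' : b = x ^ 2 + y ^ 2 + z ^ 2 - c * (y * z) := by rw [h, hc]; ring
  have hfz : 2 * z * z ≤ c * y * z := mul_le_mul_of_nonneg_right hf (by linarith)
  rw [e1]
  have hc' : c = 1 ∨ c = 2 ∨ c = 3 ∨ c = 4 ∨ 5 ≤ c := by omega
  rcases hc' with rfl | rfl | rfl | rfl | h5
  · exfalso; linarith
  · left
    have hzy : z = y := by linarith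
    refine ⟨x, 0, ?_⟩
    rw [h', hzy]
    ring
  · right
    have hx2 : x ^ 2 ≤ 9 := by nlinarith
    nlinarith
  · right
    have hx2 : x ^ 2 ≤ 16 := by nlinarith
    nlinarith
  · right
    have h2 : 5 * (y * z) ≤ c * (y * z) := mul_le_mul_of_nonneg_right h5 hyz0.le
    have h3 : x ^ 2 ≤ y * z := by nlinarith
    nlinarith

/-- the number of quadruples with bounded product -/
lemma quad (M : ℕ) : (∑ p ∈ Finset.Icc 1 M ×ˢ Finset.Icc 1 M ×ˢ Finset.Icc 1 M,
    ((M / (p.1 * p.2.1 * p.2.2) : ℕ) : ℝ)) ≤ M * (1 + Real.log M) ^ 3 := by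
  have hh : ∑ i ∈ Finset.Icc 1 M, (1 / (i : ℝ)) ≤ 1 + Real.log M := by
    have := harmonic_le_one_add_log M
    rw [harmonic_eq_sum_Icc] at this
    push_cast at this
    simpa [one_div] using this
  have hh0 : 0 ≤ ∑ i ∈ Finset.Icc 1 M, (1 / (i : ℝ)) := Finset.sum_nonneg fun i _ => by positivity
  calc (∑ p ∈ Finset.Icc 1 M ×ˢ Finset.Icc 1 M ×ˢ Finset.Icc 1 M, ((M / (p.1 * p.2.1 * p.2.2) : ℕ) : ℝ))
      ≤ ∑ p ∈ Finset.Icc 1 M ×ˢ Finset.Icc 1 M ×ˢ Finset.Icc 1 M,
          (M : ℝ) * ((1 / (p.1 : ℝ)) * ((1 / (p.2.1 : ℝ)) * (1 / (p.2.2 : ℝ)))) := by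
        refine Finset.sum_le_sum fun p _ => ?_
        refine (Nat.cast_div_le).trans (le_of_eq ?_)
        push_cast
        rw [div_eq_mul_inv, one_div, one_div, one_div, mul_inv, mul_inv, mul_assoc ((p.1 : ℝ)⁻¹)]
    _ = (M : ℝ) * (∑ i ∈ Finset.Icc 1 M, (1 / (i : ℝ))) ^ 3 := by
        rw [← Finset.mul_sum, Finset.sum_product]
        simp only [← Finset.mul_sum]
        rw [Finset.sum_product]
        simp only [← Finset.mul_sum, ← Finset.sum_mul]
        ring
    _ ≤ M * (1 + Real.log M) ^ 3 := by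
        gcongr

/-- the exceptional pairs come from quadruples -/
lemma exc_quad (N : ℕ) {a b : ℤ} (hb : |b| ≤ N) (hs : Solvable a b) (ht : ¬ TwoSquares b) (h5 : 5 ≤ |a|) :
    ∃ x y z A : ℕ, 1 ≤ x ∧ 1 ≤ y ∧ 1 ≤ z ∧ 1 ≤ A ∧ A * (x * y * z) ≤ 10 * N ∧ |a| = A ∧
      ∃ t : ℤ, (t = 1 ∨ t = -1) ∧ b = x ^ 2 + y ^ 2 + z ^ 2 + t * (A * x * y * z) := by
  have hbb := abs_le.1 hb
  have main : ∀ x y z t : ℤ, 1 ≤ x → 1 ≤ y → 1 ≤ z → (t = 1 ∨ t = -1) → |a| * x * y * z ≤ 10 * N →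
      b = x ^ 2 + y ^ 2 + z ^ 2 + t * (|a| * x * y * z) → ∃ x y z A : ℕ, 1 ≤ x ∧ 1 ≤ y ∧ 1 ≤ z ∧ 1 ≤ A ∧
      A * (x * y * z) ≤ 10 * N ∧ |a| = A ∧
      ∃ t : ℤ, (t = 1 ∨ t = -1) ∧ b = x ^ 2 + y ^ 2 + z ^ 2 + t * (A * x * y * z) := by
    intro x y z t hx hy hz h1 h2 h3
    obtain ⟨x', rfl⟩ := Int.eq_ofNat_of_zero_le (by linarith : 0 ≤ x)
    obtain ⟨y', rfl⟩ := Int.eq_ofNat_of_zero_le (by linarith : 0 ≤ y)
    obtain ⟨z', rfl⟩ := Int.eq_ofNat_of_zero_le (by linarith : 0 ≤ z)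
    obtain ⟨A, hA⟩ := Int.eq_ofNat_of_zero_le (abs_nonneg a)
    rw [hA] at h2 h3 h5
    refine ⟨x', y', z', A, by exact_mod_cast hx, by exact_mod_cast hy, by exact_mod_cast hz, by omega, ?_, hA,
      t, h1, h3⟩
    have : ((A * (x' * y' * z') : ℕ) : ℤ) ≤ ((10 * N : ℕ) : ℤ) := by
      push_cast
      linarith [h2, (by ring : (A : ℤ) * x' * y' * z' = A * (x' * y' * z'))]
    exact_mod_cast this
  rcases cases_of |a| ((solvable_abs a b).2 hs) with h | h | h
  · exact absurd h ht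
  · obtain ⟨x, y, z, hx, hy, hz, h⟩ := h
    have h1 := neg_bound hx hy hz h
    exact main x y z 1 hx hy hz (Or.inl rfl) (by linarith) (by rw [h]; ring)
  · obtain ⟨x, y, z, hx, hxy, hyz, hf, h⟩ := h
    have h1 := fund_bound h5 hx hxy hyz hf h
    exact main x y z (-1) hx (by linarith) (by linarith) (Or.inr rfl) (by linarith) (by rw [h]; ring)

lemma count (N : ℕ) (hN : 2 ≤ N) :
    ({p : ℤ × ℤ | |p.1| ≤ N ∧ |p.2| ≤ N ∧ ¬ (Solvable p.1 p.2 ↔ TwoSquares p.2)}.ncard : ℝ) ≤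
      14000 * N * Real.log N ^ 3 := by
  classical
  obtain ⟨M, hM⟩ : ∃ M, M = 10 * N := ⟨_, rfl⟩
  let E : Finset (Σ _ : ℕ × ℕ × ℕ, ℕ) := (Finset.Icc 1 M ×ˢ Finset.Icc 1 M ×ˢ Finset.Icc 1 M).sigma
    (fun p => Finset.Icc 1 (M / (p.1 * p.2.1 * p.2.2)))
  let sg : Finset (ℤ × ℤ) := ({1, -1} : Finset ℤ) ×ˢ ({1, -1} : Finset ℤ)
  let f : ((Σ _ : ℕ × ℕ × ℕ, ℕ) × (ℤ × ℤ)) → ℤ × ℤ := fun q =>
    (q.2.1 * q.1.2, (q.1.1.1 : ℤ) ^ 2 + (q.1.1.2.1 : ℤ) ^ 2 + (q.1.1.2.2 : ℤ) ^ 2 +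
      q.2.2 * (q.1.2 * q.1.1.1 * q.1.1.2.1 * q.1.1.2.2))
  let T : Finset (ℤ × ℤ) := (Finset.Icc (-4 : ℤ) 4 ×ˢ Finset.Icc (-(N : ℤ)) N) ∪ (E ×ˢ sg).image f
  have hsub : {p : ℤ × ℤ | |p.1| ≤ N ∧ |p.2| ≤ N ∧ ¬ (Solvable p.1 p.2 ↔ TwoSquares p.2)} ⊆ (T : Set (ℤ × ℤ)) := by
    rintro ⟨a, b⟩ ⟨-, hb, hn⟩
    have hb' : |b| ≤ N := hb
    have hn' : ¬ (Solvable a b ↔ TwoSquares b) := hn
    have ht : ¬ TwoSquares b := fun h => hn' ⟨fun _ => h, fun _ => two_solvable a h⟩
    have hs : Solvable a b := by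
      by_contra h
      exact hn' ⟨fun h' => absurd h' h, fun h' => absurd h' ht⟩
    rw [Finset.mem_coe, Finset.mem_union]
    by_cases h5 : 5 ≤ |a|
    · right
      obtain ⟨x, y, z, A, hx, hy, hz, hA, hle, haA, t, ht', hbe⟩ := exc_quad N hb' hs ht h5
      rw [Finset.mem_image]
      rw [← hM] at hle
      have hxyz : 1 ≤ x * y * z := Nat.mul_pos (Nat.mul_pos hx hy) hz
      have hle2 : x * y * z ≤ M := le_trans (Nat.le_mul_of_pos_left _ hA) hle
      have hxM : x ≤ M := le_trans (by rw [mul_assoc]; exact Nat.le_mul_of_pos_right _ (Nat.mul_pos hy hz)) hle2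
      have hyM : y ≤ M := le_trans (by
        calc y ≤ x * y := Nat.le_mul_of_pos_left _ hx
          _ ≤ x * y * z := Nat.le_mul_of_pos_right _ hz) hle2
      have hzM : z ≤ M := le_trans (Nat.le_mul_of_pos_left _ (Nat.mul_pos hx hy)) hle2
      have hAM : A ≤ M / (x * y * z) := (Nat.le_div_iff_mul_le hxyz).2 hle
      obtain ⟨s, hs1, hs2⟩ : ∃ s : ℤ, (s = 1 ∨ s = -1) ∧ a = s * A := by
        rcases abs_choice a with h | h
        · exact ⟨1, Or.inl rfl, by rw [← haA, h, one_mul]⟩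
        · exact ⟨-1, Or.inr rfl, by rw [← haA, h]; ring⟩
      refine ⟨(⟨(x, y, z), A⟩, (s, t)), ?_, ?_⟩
      · simp only [E, sg, Finset.mem_product, Finset.mem_sigma, Finset.mem_Icc, Finset.mem_insert,
          Finset.mem_singleton]
        exact ⟨⟨⟨⟨hx, hxM⟩, ⟨hy, hyM⟩, ⟨hz, hzM⟩⟩, hA, hAM⟩, hs1, ht'⟩
      · change (s * (A : ℤ), (x : ℤ) ^ 2 + (y : ℤ) ^ 2 + (z : ℤ) ^ 2 + t * (A * x * y * z)) = (a, b)
        rw [← hs2, ← hbe]
    · left
      push Not at h5
      have h1 := abs_le.1 (by linarith : |a| ≤ 4)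
      have h2 := abs_le.1 hb'
      rw [Finset.mem_product, Finset.mem_Icc, Finset.mem_Icc]
      exact ⟨h1, h2⟩
  have hcard : {p : ℤ × ℤ | |p.1| ≤ N ∧ |p.2| ≤ N ∧ ¬ (Solvable p.1 p.2 ↔ TwoSquares p.2)}.ncard ≤
      9 * (2 * N + 1) + E.card * 4 := by
    calc _ ≤ (T : Set (ℤ × ℤ)).ncard := Set.ncard_le_ncard hsub T.finite_toSet
      _ = T.card := Set.ncard_coe_finset T
      _ ≤ (Finset.Icc (-4 : ℤ) 4 ×ˢ Finset.Icc (-(N : ℤ)) N).card + ((E ×ˢ sg).image f).card :=
        Finset.card_union_le _ _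
      _ ≤ 9 * (2 * N + 1) + E.card * 4 := by
        apply Nat.add_le_add
        · rw [Finset.card_product, Int.card_Icc, Int.card_Icc]
          have : ((N : ℤ) + 1 - -(N : ℤ)).toNat = 2 * N + 1 := by omega
          rw [this]
          norm_num
        · refine Finset.card_image_le.trans ?_
          rw [Finset.card_product]
          apply Nat.mul_le_mul_left
          simp [sg]
  have hE : (E.card : ℝ) ≤ M * (1 + Real.log M) ^ 3 := by
    refine le_trans (le_of_eq ?_) (quad M)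
    rw [Finset.card_sigma]
    push_cast
    refine Finset.sum_congr rfl fun p _ => ?_
    rw [Nat.card_Icc]
    simp
  have hN' : (2 : ℝ) ≤ N := by exact_mod_cast hN
  have hlog2 : (1 / 2 : ℝ) ≤ Real.log 2 := by linarith [Real.log_two_gt_d9]
  have hlogN : Real.log 2 ≤ Real.log N := Real.log_le_log (by norm_num) hN'
  have hlog10 : Real.log 10 ≤ 4 * Real.log 2 := by
    have : (4 : ℝ) * Real.log 2 = Real.log (2 ^ 4) := by rw [Real.log_pow]; norm_num
    rw [this]
    exact Real.log_le_log (by norm_num) (by norm_num)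
  have hlogM : 1 + Real.log M ≤ 7 * Real.log N := by
    rw [hM]
    push_cast
    rw [Real.log_mul (by norm_num) (by linarith)]
    linarith
  have hMpos : (1 : ℝ) ≤ M := by
    rw [hM]
    push_cast
    linarith
  have hlM : 0 ≤ Real.log M := Real.log_nonneg hMpos
  have hE' : (E.card : ℝ) ≤ 3430 * N * Real.log N ^ 3 := by
    calc (E.card : ℝ) ≤ M * (1 + Real.log M) ^ 3 := hE
      _ ≤ M * (7 * Real.log N) ^ 3 := by gcongr
      _ = 3430 * N * Real.log N ^ 3 := by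
        rw [hM]
        push_cast
        ring
  have hl8 : 1 / 8 ≤ Real.log N ^ 3 := by
    have h1 : (1 / 2 : ℝ) ≤ Real.log N := by linarith
    calc (1 / 8 : ℝ) = (1 / 2) ^ 3 := by norm_num
      _ ≤ Real.log N ^ 3 := by gcongr
  have hcard' : ({p : ℤ × ℤ | |p.1| ≤ N ∧ |p.2| ≤ N ∧ ¬ (Solvable p.1 p.2 ↔ TwoSquares p.2)}.ncard : ℝ) ≤
      9 * (2 * N + 1) + E.card * 4 := by exact_mod_cast hcard
  have h27 : (27 : ℝ) * N ≤ 216 * N * Real.log N ^ 3 := by nlinarith
  have hnn : 0 ≤ (N : ℝ) * Real.log N ^ 3 := by positivity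
  nlinarith

/-- **Solvability of `x^2 + y^2 + z^2 - a x y z = b` for almost all pairs `(a, b)`.** -/
theorem result :
    (∀ a b : ℤ, a ≠ 0 → (Solvable a b ↔ TwoSquares b ∨ ∃ x y z s : ℤ, 1 ≤ x ∧ 1 ≤ y ∧ 1 ≤ z ∧
      (s = 1 ∨ s = -1) ∧ |a| * x * y * z ≤ 10 * |b| + 64 ∧ b = x ^ 2 + y ^ 2 + z ^ 2 + s * (|a| * x * y * z))) ∧
    (∀ a b : ℤ, 5 ≤ |a| → (Solvable a b ↔ TwoSquares b ∨ ∃ x y z s : ℤ, 1 ≤ x ∧ 1 ≤ y ∧ 1 ≤ z ∧
      (s = 1 ∨ s = -1) ∧ |a| * x * y * z ≤ 10 * |b| ∧ b = x ^ 2 + y ^ 2 + z ^ 2 + s * (|a| * x * y * z))) ∧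
    (∀ a b : ℤ, 3 ≤ |a| → 3 - |a| < b → b < |a| + 3 → (Solvable a b ↔ TwoSquares b)) ∧
    (∀ a : ℤ, Solvable a (3 - |a|) ∧ Solvable a (|a| + 3)) ∧
    (∀ N : ℕ, 2 ≤ N →
      ({p : ℤ × ℤ | |p.1| ≤ N ∧ |p.2| ≤ N ∧ ¬ (Solvable p.1 p.2 ↔ TwoSquares p.2)}.ncard : ℝ) ≤
        14000 * N * Real.log N ^ 3) := by
  refine ⟨?_, ?_, ?_, ?_, count⟩
  · intro a b h0
    have h1a : 1 ≤ |a| := Int.one_le_abs h0
    constructor
    · intro h
      rcases cases_of |a| ((solvable_abs a b).2 h) with h | h | h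
      · exact Or.inl h
      · obtain ⟨x, y, z, hx, hy, hz, h⟩ := h
        refine Or.inr ⟨x, y, z, 1, hx, hy, hz, Or.inl rfl, ?_, by rw [h]; ring⟩
        have h1 := neg_bound hx hy hz h
        have h2 := le_abs_self b
        have h3 := abs_nonneg b
        linarith
      · obtain ⟨x, y, z, hx, hxy, hyz, hf, h⟩ := h
        rcases fund_bound_all h1a hx hxy hyz hf h with h1 | h1
        · exact Or.inl h1
        · exact Or.inr ⟨x, y, z, -1, hx, by linarith, by linarith, Or.inr rfl, h1, by rw [h]; ring⟩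
    · rintro (h | ⟨x, y, z, s, -, -, -, hs, -, h⟩)
      · exact two_solvable a h
      · apply (solvable_abs a b).1
        rcases hs with rfl | rfl
        · exact ⟨-x, y, z, by rw [h]; ring⟩
        · exact ⟨x, y, z, by rw [h]; ring⟩
  · intro a b h5
    constructor
    · intro h
      rcases cases_of |a| ((solvable_abs a b).2 h) with h | h | h
      · exact Or.inl h
      · obtain ⟨x, y, z, hx, hy, hz, h⟩ := h
        refine Or.inr ⟨x, y, z, 1, hx, hy, hz, Or.inl rfl, ?_, by rw [h]; ring⟩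
        have h1 := neg_bound hx hy hz h
        have h2 := le_abs_self b
        have h3 := abs_nonneg b
        linarith
      · obtain ⟨x, y, z, hx, hxy, hyz, hf, h⟩ := h
        refine Or.inr ⟨x, y, z, -1, hx, by linarith, by linarith, Or.inr rfl, ?_, by rw [h]; ring⟩
        have h1 := fund_bound h5 hx hxy hyz hf h
        have h2 := neg_le_abs b
        linarith
    · rintro (h | ⟨x, y, z, s, -, -, -, hs, -, h⟩)
      · exact two_solvable a h
      · apply (solvable_abs a b).1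
        rcases hs with rfl | rfl
        · exact ⟨-x, y, z, by rw [h]; ring⟩
        · exact ⟨x, y, z, by rw [h]; ring⟩
  · intro a b h3 h1 h2
    refine ⟨fun h => ?_, two_solvable a⟩
    rcases cases_of |a| ((solvable_abs a b).2 h) with h | h | h
    · exact h
    · obtain ⟨x, y, z, hx, hy, hz, h⟩ := h
      have h4 := neg_bound hx hy hz h
      have h5 : 1 ≤ x * y * z := by
        have := mul_pos (mul_pos (by linarith : (0 : ℤ) < x) (by linarith : (0 : ℤ) < y)) (by linarith : (0 : ℤ) < z)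
        linarith
      have h6 : |a| * x * y * z = |a| * (x * y * z) := by ring
      nlinarith
    · obtain ⟨x, y, z, hx, hxy, hyz, hf, h⟩ := h
      have h4 := fund_bound' h3 hx hxy hyz hf h
      linarith
  · intro a
    refine ⟨(solvable_abs a _).1 ⟨1, 1, 1, by ring⟩, (solvable_abs a _).1 ⟨-1, 1, 1, by ring⟩⟩

end Pool.Agent.Results.MP_aff84d_nt.AlmostAllPairs
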